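import Pool.Agent.Y197.LR.Stm

/-!
# Project LR, job LR-P1: lower bound for the first half, uniform in the explored set
-/

set_option autoImplicit false

namespace Pool.Agent.Y903.LR

open H974 Finset
open Pool.Agent.Y197.LR

theorem mem_SE_true {n c c' x y : ℤ} :
    ((x, y, true) : Edg) ∈ SE n c c' ↔ c ≤ x ∧ x < c' ∧ 0 ≤ y ∧ y ≤ n := by
  unfold SE
  rw [Finset.mem_filter, mem_RE_true]
  constructor
  · rintro ⟨h1, h2⟩
    simp only at h2
    omega
  · intro h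
    refine ⟨by omega, ?_⟩
    simp only
    omega

theorem mem_SE_false {n c c' x y : ℤ} :
    ((x, y, false) : Edg) ∈ SE n c c' ↔ c ≤ x ∧ x < c' ∧ 0 ≤ y ∧ y < n := by
  unfold SE
  rw [Finset.mem_filter, mem_RE_false]
  constructor
  · rintro ⟨h1, h2⟩
    simp only at h2
    omega
  · intro h
    refine ⟨by omega, ?_⟩
    simp only
    omega

theorem inS_iff_true {n x y : ℤ} : InS n (x, y, true) ↔ 0 ≤ y ∧ y ≤ n := by
  unfold InS
  rw [tgt_true]

theorem inS_iff_false {n x y : ℤ} : InS n (x, y, false) ↔ 0 ≤ y ∧ y + 1 ≤ n := by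
  unfold InS
  rw [tgt_false]

theorem inS_of_SE {n c c' : ℤ} {e : Edg} (h : e ∈ SE n c c') : InS n e := by
  obtain ⟨x, y, _ | _⟩ := e
  · rw [mem_SE_false] at h
    rw [inS_iff_false]
    omega
  · rw [mem_SE_true] at h
    rw [inS_iff_true]
    omega

theorem WW_box {n : ℤ} {K : Finset Edg} (hK : K ⊆ TBE 0 n 0 n) {u : Vtx} (h : WW K u) :
    u.1 ≤ n := by
  obtain ⟨e, he, heu⟩ := h
  have := hK he
  obtain ⟨x1, y1, _ | _⟩ := e
  · rw [mem_TBE_false] at this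
    simp only [src_mk, tgt_false] at heu
    rcases heu with h | h <;> (rw [← h]; simp only; omega)
  · rw [mem_TBE_true] at this
    simp only [src_mk, tgt_true] at heu
    rcases heu with h | h <;> (rw [← h]; simp only; omega)

/-- the strip to the right of the column `n` is far -/
theorem far_right {n : ℤ} {K : Finset Edg} (hK : K ⊆ TBE 0 n 0 n) {x y : ℤ} (hy : 0 ≤ y)
    (hyn : y ≤ n) (hx : n + 1 ≤ x) : Far n K (x, y) := by
  refine ⟨(n + 1, y), ⟨rfl, hy, hyn⟩, ?_⟩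
  induction x, hx using Int.leInduction with
  | base => exact Reach.refl _ _
  | succ x hx ih =>
    refine ih.trans (Adj.reach ⟨(x, y, true), ⟨?_, ?_, ?_⟩, Or.inl ⟨rfl, rfl⟩⟩)
    · rw [inS_iff_true]
      exact ⟨hy, hyn⟩
    · intro h
      have := WW_box hK h
      simp only [src_mk] at this
      omega
    · intro h
      have := WW_box hK h
      simp only [tgt_true] at this
      omega

theorem EA_right {n : ℤ} {K : Finset Edg} (hK : K ⊆ TBE 0 n 0 n) {e : Edg} (he : InS n e)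
    (hx : n + 1 ≤ e.1) : EA n K e := by
  left
  obtain ⟨x, y, _ | _⟩ := e
  · rw [inS_iff_false] at he
    exact far_right (x := x) (y := y) hK he.1 (by have := he.2; omega) hx
  · rw [inS_iff_true] at he
    exact far_right hK he.1 he.2 hx

/-- far vertices are closed under paths which avoid the explored edges -/
theorem far_path {n : ℤ} {K : Finset Edg} {G : Set Edg}
    (hG : ∀ e ∈ G, InS n e ∧ ¬ WW K (src e) ∧ ¬ WW K (tgt e)) {u v : Vtx} (hu : Far n K u)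
    (h : Reach G u v) : Far n K v ∧ Reach (G ∩ {e | EA n K e}) u v := by
  induction h with
  | refl => exact ⟨hu, Reach.refl _ _⟩
  | @tail v w _ hs ih =>
    obtain ⟨e, he, hc⟩ := hs
    obtain ⟨p, hp, hr⟩ := ih.1
    have hfw : Far n K w := ⟨p, hp, hr.trans (Adj.reach ⟨e, hG e he, hc⟩)⟩
    refine ⟨hfw, ih.2.trans (Adj.reach ⟨e, ⟨he, ?_⟩, hc⟩)⟩
    rcases hc with ⟨h1, h2⟩ | ⟨h1, h2⟩
    · exact Or.inl (by rw [h1]; exact ih.1)
    · exact Or.inr (by rw [h2]; exact ih.1)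

/-- the deterministic part -/
theorem det {n : ℤ} (hn : 1 ≤ n) {K : Finset Edg} (hK : K ⊆ TBE 0 n 0 n)
    (hcol : ∀ y, 0 ≤ y → y ≤ n → WW K (0, y)) {S : Set Vtx} {F ω : Finset Edg}
    (hS : RtV n (N n) S) (hF : Rt n (N n) F) (hω : ω ⊆ SE n 0 (N n))
    (hA : Cn S (col n (n + 1)) (F ∪ (ω ∩ SE n (n + 1) (N n))))
    (hV : TBc (n + 1) (2 * n + 1) 0 n ω) (hH : LRc 0 (2 * n + 1) 0 n (ω ∪ K)) :
    ∃ s ∈ S, ∃ t ∈ Bd n K, Reach {e | (e ∈ F ∨ e ∈ ω) ∧ EA n K e} s t := by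
  have hN : N n = 2 * n + 2 := rfl
  obtain ⟨s, hs, t, ht, hst⟩ := hA
  obtain ⟨x, x', hx, hx', hV'⟩ := hV
  obtain ⟨y, y', hy, hy', hH'⟩ := hH
  -- the edges in the columns `≥ n + 1`
  let X : Set Edg := {e | (e ∈ F ∨ e ∈ ω) ∧ n + 1 ≤ e.1}
  have hXS : ∀ e ∈ X, InS n e := by
    rintro e ⟨h1 | h1, -⟩
    · exact (hF e h1).2
    · exact inS_of_SE (hω h1)
  have hXE : X ⊆ {e | (e ∈ F ∨ e ∈ ω) ∧ EA n K e} := by
    intro e he
    exact ⟨he.1, EA_right hK (hXS e he) he.2⟩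
  have hst' : Reach X t s := by
    refine (hst.mono ?_).symm
    intro e he
    simp only [Finset.coe_union, Finset.coe_inter, Set.mem_union, Set.mem_inter_iff,
      Finset.mem_coe] at he
    rcases he with h1 | ⟨h1, h2⟩
    · refine ⟨Or.inl h1, ?_⟩
      have := (hF e h1).1
      omega
    · refine ⟨Or.inr h1, ?_⟩
      obtain ⟨a, b, _ | _⟩ := e
      · rw [mem_SE_false] at h2
        exact h2.1
      · rw [mem_SE_true] at h2
        exact h2.1
  have hXH : ∀ x y, ((x, y, true) : Edg) ∈ X → n + 1 ≤ x → x < 2 * n + 1 → 0 ≤ y ∧ y ≤ n := by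
    intro x y h _ _
    exact inS_iff_true.mp (hXS _ h)
  have hXV : ∀ x y, ((x, y, false) : Edg) ∈ X → n + 1 < x → x < 2 * n + 1 → 0 ≤ y ∧ y < n := by
    intro x y h _ _
    have := inS_iff_false.mp (hXS _ h)
    omega
  have hs1 := (hS s hs).1
  have ht1 : t.1 = n + 1 := ht.1
  obtain ⟨a1, a2, ha1, ha2, ha3, ha4⟩ := sub_LR (a := n + 1) (b := 2 * n + 1) (c := 0) (d := n)
    (by omega) hXH hXV hst' (by omega) (by omega)
  have hV2 : Reach (X ∩ ↑(TBE (n + 1) (2 * n + 1) 0 n)) (x, 0) (x', n) := by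
    refine hV'.mono ?_
    rintro e ⟨h1, h2⟩
    refine ⟨⟨Or.inr h1, ?_⟩, h2⟩
    obtain ⟨a, b, _ | _⟩ := e
    · rw [Finset.mem_coe, mem_TBE_false] at h2
      exact h2.1
    · rw [Finset.mem_coe, mem_TBE_true] at h2
      exact h2.1
  have m1 := crossings_meet (a := n + 1) (b := 2 * n + 1) (c := 0) (d := n) (by omega) (by omega)
    (F := X) ha2 hx (ha3.mono (by rintro e ⟨h1, h2⟩; exact ⟨h1, h2⟩)) hV2
  -- from `S` to `(x, 0)`
  have r1 : Reach X s (x, 0) :=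
    hst'.symm.trans (ha4.trans (m1.mono Set.inter_subset_left))
  -- the horizontal path
  have hnW : ¬ WW K (2 * n + 1, y') := by
    intro h
    have := WW_box hK h
    simp only at this
    omega
  obtain ⟨v', w', q1, q2, q3, q4⟩ := first_hit hH'.symm hnW (hcol y hy.1 hy.2)
  let G : Set Edg := (↑(ω ∪ K) ∩ ↑(LRE 0 (2 * n + 1) 0 n)) ∩
    {e | ¬ WW K (src e) ∧ ¬ WW K (tgt e)}
  have hGω : ∀ e ∈ G, e ∈ ω := by
    rintro e ⟨⟨h1, -⟩, h2, -⟩
    rw [Finset.mem_coe, Finset.mem_union] at h1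
    rcases h1 with h1 | h1
    · exact h1
    · exact absurd ⟨e, h1, Or.inl rfl⟩ h2
  have hGS : ∀ e ∈ G, InS n e ∧ ¬ WW K (src e) ∧ ¬ WW K (tgt e) :=
    fun e he => ⟨inS_of_SE (hω (hGω e he)), he.2⟩
  have hGH : ∀ x y, ((x, y, true) : Edg) ∈ G → n + 1 ≤ x → x < 2 * n + 1 → 0 ≤ y ∧ y ≤ n := by
    intro x y h _ _
    exact inS_iff_true.mp (hGS _ h).1
  have hGV : ∀ x y, ((x, y, false) : Edg) ∈ G → n + 1 < x → x < 2 * n + 1 → 0 ≤ y ∧ y < n := by
    intro x y h _ _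
    have := inS_iff_false.mp (hGS _ h).1
    omega
  have hw1 := WW_box hK q4
  have hv1 : v'.1 ≤ n + 1 := by
    obtain ⟨e, -, hc⟩ := q3
    obtain ⟨a, b, _ | _⟩ := e
    · simp only [src_mk, tgt_false] at hc
      rcases hc with ⟨h1, h2⟩ | ⟨h1, h2⟩
      · rw [← h2] at hw1
        rw [← h1]
        simp only at hw1 ⊢
        omega
      · rw [← h1] at hw1
        rw [← h2]
        simp only at hw1 ⊢
        omega
    · simp only [src_mk, tgt_true] at hc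
      rcases hc with ⟨h1, h2⟩ | ⟨h1, h2⟩
      · rw [← h2] at hw1
        rw [← h1]
        simp only at hw1 ⊢
        omega
      · rw [← h1] at hw1
        rw [← h2]
        simp only at hw1 ⊢
        omega
  obtain ⟨b1, b2, hb1, hb2, hb3, hb4⟩ := sub_LR (G := G) (a := n + 1) (b := 2 * n + 1) (c := 0)
    (d := n) (by omega) hGH hGV (u := v') (v := (2 * n + 1, y')) q1.symm hv1 le_rfl
  have hb5 : Reach (X ∩ ↑(LRE (n + 1) (2 * n + 1) 0 n)) (n + 1, b1) (2 * n + 1, b2) := by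
    refine hb3.mono ?_
    rintro e ⟨h1, h2⟩
    refine ⟨⟨Or.inr (hGω e h1), ?_⟩, h2⟩
    obtain ⟨a, b, _ | _⟩ := e
    · rw [Finset.mem_coe, mem_LRE_false] at h2
      simp only
      omega
    · rw [Finset.mem_coe, mem_LRE_true] at h2
      exact h2.1
  have m2 := crossings_meet (a := n + 1) (b := 2 * n + 1) (c := 0) (d := n) (by omega) (by omega)
    (F := X) hb2 hx hb5 hV2
  have r2 : Reach X (x, 0) (n + 1, b1) := (m2.mono Set.inter_subset_left).symm
  obtain ⟨f1, f2⟩ := far_path hGS (far_right hK hb1.1 hb1.2 le_rfl) hb4.symm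
  have r3 : Reach {e | (e ∈ F ∨ e ∈ ω) ∧ EA n K e} (n + 1, b1) v' := by
    refine f2.mono ?_
    rintro e ⟨h1, h2⟩
    exact ⟨Or.inr (hGω e h1), h2⟩
  obtain ⟨e, ⟨he1, he2⟩, hc⟩ := q3
  have heω : e ∈ ω := by
    rw [Finset.mem_coe, Finset.mem_union] at he1
    rcases he1 with h1 | h1
    · exact h1
    · exfalso
      apply q2
      rcases hc with ⟨h2, -⟩ | ⟨-, h2⟩
      · exact ⟨e, h1, Or.inl h2⟩
      · exact ⟨e, h1, Or.inr h2⟩
  have heE : EA n K e := by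
    rcases hc with ⟨h2, -⟩ | ⟨-, h2⟩
    · exact Or.inl (by rw [h2]; exact f1)
    · exact Or.inr (by rw [h2]; exact f1)
  have hadj : Adj {e | (e ∈ F ∨ e ∈ ω) ∧ EA n K e} v' w' := ⟨e, ⟨Or.inr heω, heE⟩, hc⟩
  refine ⟨s, hs, w', ⟨q4, v', f1, ⟨e, inS_of_SE (hω heω), hc⟩⟩, ?_⟩
  exact (r1.mono hXE).trans ((r2.mono hXE).trans (r3.trans hadj.reach))

/-- **LR-P1** -/
theorem main (h : S_RSW) : S_P1 := by
  obtain ⟨κ, hκ, hrsw⟩ := h
  refine ⟨κ / 2, by positivity, ?_⟩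
  intro n F0 hn _ S F hS hF
  have hok : Ok hf := okq (q := (1 / 2 : ℝ)) (by norm_num) (by norm_num)
  have hN : N n = 2 * n + 2 := rfl
  have hK := KK_subset n F0
  have hcol := KK_col (n := n) (by omega) F0
  have hsub1 : SE n (n + 1) (N n) ⊆ SE n 0 (N n) := by
    rintro ⟨a, b, _ | _⟩ he
    · rw [mem_SE_false] at he ⊢
      omega
    · rw [mem_SE_true] at he ⊢
      omega
  have hsub2 : TBE (n + 1) (2 * n + 1) 0 n ⊆ SE n 0 (N n) := by
    rintro ⟨a, b, _ | _⟩ he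
    · rw [mem_TBE_false] at he
      rw [mem_SE_false]
      omega
    · rw [mem_TBE_true] at he
      rw [mem_SE_true]
      omega
  have hsub3 : LRE 0 (2 * n + 1) 0 n ⊆ SE n 0 (N n) := by
    rintro ⟨a, b, _ | _⟩ he
    · rw [mem_LRE_false] at he
      rw [mem_SE_false]
      omega
    · rw [mem_LRE_true] at he
      rw [mem_SE_true]
      omega
  -- the three events
  let A : Finset Edg → Prop := fun ω => Cn S (col n (n + 1)) (F ∪ (ω ∩ SE n (n + 1) (N n)))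
  let V : Finset Edg → Prop := TBc (n + 1) (2 * n + 1) 0 n
  let H : Finset Edg → Prop := fun ω => LRc 0 (2 * n + 1) 0 n (ω ∪ KK n F0)
  have iA : IncrE (SE n 0 (N n)) A := by
    rintro ω ω' hωω _ ⟨s, hs, t, ht, hr⟩
    refine ⟨s, hs, t, ht, hr.mono ?_⟩
    have : F ∪ (ω ∩ SE n (n + 1) (N n)) ⊆ F ∪ (ω' ∩ SE n (n + 1) (N n)) :=
      Finset.union_subset_union_right (Finset.inter_subset_inter_right hωω)
    exact_mod_cast this
  have iV : IncrE (SE n 0 (N n)) V := TBc_incr _ _ _ _ _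
  have iH : IncrE (SE n 0 (N n)) H := by
    intro ω ω' hωω _ hr
    exact LRc.mono (Finset.union_subset_union_left hωω) hr
  have iAV : IncrE (SE n 0 (N n)) (fun ω => A ω ∧ V ω) := by
    intro ω ω' h1 h2 h3
    exact ⟨iA ω ω' h1 h2 h3.1, iV ω ω' h1 h2 h3.2⟩
  have pA : Pr hf (SE n 0 (N n)) A = aa n S F := by
    have e1 : Pr hf (SE n 0 (N n)) A = Pr hf (SE n (n + 1) (N n)) A := by
      apply Pr_local hsub1
      intro ω _
      show Cn S (col n (n + 1)) (F ∪ (ω ∩ SE n (n + 1) (N n))) ↔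
        Cn S (col n (n + 1)) (F ∪ ((ω ∩ SE n (n + 1) (N n)) ∩ SE n (n + 1) (N n)))
      rw [Finset.inter_assoc, Finset.inter_self]
    rw [e1]
    unfold aa U
    apply Pr_congr
    intro ω hω
    show Cn S (col n (n + 1)) (F ∪ (ω ∩ SE n (n + 1) (N n))) ↔ Cn S (col n (n + 1)) (F ∪ ω)
    rw [Finset.inter_eq_left.mpr hω]
  have pV : (1 / 2 : ℝ) ≤ Pr hf (SE n 0 (N n)) V := by
    have e1 : Pr hf (SE n 0 (N n)) V = hh (1 / 2) (n - 0) (2 * n + 1 - (n + 1)) :=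
      pr_TBc (1 / 2) hsub2
    rw [e1]
    have e2 : n - 0 = n := by ring
    have e3 : 2 * n + 1 - (n + 1) = n := by ring
    rw [e2, e3]
    exact hh_square n (by omega)
  have pH : κ ≤ Pr hf (SE n 0 (N n)) H := by
    have e1 : Pr hf (SE n 0 (N n)) (LRc 0 (2 * n + 1) 0 n) = hh (1 / 2) (2 * n + 1 - 0) (n - 0) :=
      pr_LRc (1 / 2) hsub3
    have e2 : 2 * n + 1 - 0 = 2 * n + 1 := by ring
    have e3 : n - 0 = n := by ring
    rw [e2, e3] at e1
    have e4 := hrsw n (2 * n + 1) hn (by omega) (by omega)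
    rw [← e1] at e4
    refine e4.trans (Pr_mono hok ?_)
    intro ω _ hr
    exact LRc.mono Finset.subset_union_left hr
  have h1 := Pr_harris hok iA iV
  have h2 := Pr_harris hok iAV iH
  have hA0 : 0 ≤ Pr hf (SE n 0 (N n)) A := Pr_nonneg hok _ _
  have hH0 : 0 ≤ Pr hf (SE n 0 (N n)) H := Pr_nonneg hok _ _
  have h3 : Pr hf (SE n 0 (N n)) A * (1 / 2) * κ ≤
      Pr hf (SE n 0 (N n)) (fun ω => (A ω ∧ V ω) ∧ H ω) := by
    refine le_trans ?_ h2
    have h4 : Pr hf (SE n 0 (N n)) A * (1 / 2) ≤ Pr hf (SE n 0 (N n)) (fun ω => A ω ∧ V ω) :=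
      le_trans (mul_le_mul_of_nonneg_left pV hA0) h1
    exact mul_le_mul h4 pH hκ.le (le_trans (by positivity) h4)
  rw [← pA]
  calc κ / 2 * Pr hf (SE n 0 (N n)) A = Pr hf (SE n 0 (N n)) A * (1 / 2) * κ := by ring
    _ ≤ Pr hf (SE n 0 (N n)) (fun ω => (A ω ∧ V ω) ∧ H ω) := h3
    _ ≤ _ := by
      apply Pr_mono hok
      rintro ω hω ⟨⟨k1, k2⟩, k3⟩
      obtain ⟨s, hs, t, ht, hr⟩ := det hn hK hcol hS hF hω k1 k2 k3
      refine ⟨s, hs, t, ht, hr.mono ?_⟩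
      rintro e ⟨he1, he2⟩
      classical
      exact Finset.mem_coe.mpr (Finset.mem_filter.mpr ⟨Finset.mem_union.mpr he1, he2⟩)

end Pool.Agent.Y903.LR
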